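import Pool.Agent.Lib.MP_a8cc1b_lc.NullSets

/-!
# Reflection of `Δ¹₁`-randomness implies Luzin's property (N)

We prove that every computable function `f : ℝ → ℝ` that reflects `Δ¹₁`-randomness has Luzin's
property (N).
-/

namespace Pool.Agent.Results.MP_a8cc1b_lc.ReflectionImpliesN

open Set MeasureTheory Filter Topology Primrec
open Pool.Agent.Lib.MP_a8cc1b_lc

/-! ### Definitions -/

/-- The rational number `(a - b) / (c + 1)` coded by the triple `(a, b, c)` of natural numbers. -/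
noncomputable def ratOf (q : ℕ × ℕ × ℕ) : ℝ := ((q.1 : ℝ) - q.2.1) / (q.2.2 + 1)

/-- The list of the first `m` values of the sequence `p`. -/
def initial {β : Type} (p : ℕ → β) (m : ℕ) : List β := (List.range m).map p

/-- The sequence `p` of (codes of) rational numbers names the real number `x`: its `n`-th entry is
within `2^{-n}` of `x`, for every `n`. -/
def IsName (p : ℕ → ℕ × ℕ × ℕ) (x : ℝ) : Prop := ∀ n, |ratOf (p n) - x| ≤ (1 / 2) ^ n

/-- The oracle machine described by `φ`, run with oracle `p` on input `n`, outputs `a`. Here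
`φ (s, n)` is the output on input `n` of the machine that has read exactly the finite initial part
`s` of its oracle, and `none` if the machine has to read more of the oracle. -/
def Outputs (φ : List (ℕ × ℕ × ℕ) × ℕ → Option (ℕ × ℕ × ℕ)) (p : ℕ → ℕ × ℕ × ℕ) (n : ℕ)
    (a : ℕ × ℕ × ℕ) : Prop :=
  ∃ m, φ (initial p m, n) = some a ∧ ∀ m' < m, φ (initial p m', n) = none

/-- The function `f : ℝ → ℝ` is computable in the sense of computable analysis: some oracle machine,
given any name `p` of any real `x` as oracle, outputs the successive entries of a name of `f x`. -/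
def ComputableReal (f : ℝ → ℝ) : Prop :=
  ∃ φ : List (ℕ × ℕ × ℕ) × ℕ → Option (ℕ × ℕ × ℕ), Computable φ ∧
    ∀ (x : ℝ) (p : ℕ → ℕ × ℕ × ℕ), IsName p x →
      ∃ q : ℕ → ℕ × ℕ × ℕ, IsName q (f x) ∧ ∀ n, Outputs φ p n (q n)

/-- The set `A` of reals is (lightface) `Σ¹₁`: it is the projection to `ℝ` of an effectively closed
subset of `ℝ × ℕ^ℕ`, that is, of a set whose complement is the union of a computable sequence of
basic open sets `(a, b) × [s]` with rational `a`, `b` and a finite sequence `s`. -/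
def IsSigma11 (A : Set ℝ) : Prop :=
  ∃ e : ℕ → (ℕ × ℕ × ℕ) × (ℕ × ℕ × ℕ) × List ℕ, Computable e ∧
    ∀ x, x ∈ A ↔ ∃ w : ℕ → ℕ, ∀ n,
      ¬ (ratOf (e n).1 < x ∧ x < ratOf (e n).2.1 ∧ initial w (e n).2.2.length = (e n).2.2)

/-- The set `A` of reals is (lightface) `Δ¹₁`: both `A` and its complement are `Σ¹₁`. -/
def IsDelta11 (A : Set ℝ) : Prop := IsSigma11 A ∧ IsSigma11 Aᶜ

/-- The real `x` is `Δ¹₁`-random: it lies in no `Δ¹₁` set of Lebesgue measure zero. -/
def Delta11Random (x : ℝ) : Prop := ∀ A : Set ℝ, IsDelta11 A → volume A = 0 → x ∉ A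

/-- `f` reflects `Δ¹₁`-randomness: if `f x` is `Δ¹₁`-random, then so is `x`. -/
def ReflectsDelta11Randomness (f : ℝ → ℝ) : Prop :=
  ∀ x, Delta11Random (f x) → Delta11Random x

/-- Luzin's property (N): the image of every null set is null. -/
def LuzinN (f : ℝ → ℝ) : Prop := ∀ N : Set ℝ, volume N = 0 → volume (f '' N) = 0

/-! ### Computable functions are continuous -/

theorem outputs_unique {φ : List (ℕ × ℕ × ℕ) × ℕ → Option (ℕ × ℕ × ℕ)} {p : ℕ → ℕ × ℕ × ℕ}
    {n : ℕ} {a b : ℕ × ℕ × ℕ} (ha : Outputs φ p n a) (hb : Outputs φ p n b) : a = b := by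
  obtain ⟨m, h1, h2⟩ := ha
  obtain ⟨m', h3, h4⟩ := hb
  rcases lt_trichotomy m m' with h | h | h
  · rw [h4 m h] at h1
    cases h1
  · subst h
    rw [h1] at h3
    exact Option.some.inj h3
  · rw [h2 m' h] at h3
    cases h3

theorem exists_strong_name (x : ℝ) :
    ∃ p : ℕ → ℕ × ℕ × ℕ, ∀ n, |ratOf (p n) - x| ≤ (1 / 2) ^ (n + 1) := by
  have h : ∀ n : ℕ, ∃ q : ℕ × ℕ × ℕ, |ratOf q - x| ≤ (1 / 2) ^ (n + 1) := by
    intro n
    have hp : (0 : ℝ) < (1 / 2) ^ (n + 1) := by positivity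
    obtain ⟨q, h1, h2⟩ := exists_rat_btwn' (x := x - (1 / 2) ^ (n + 1))
      (y := x + (1 / 2) ^ (n + 1)) (by linarith)
    have h3 : x - (1 / 2) ^ (n + 1) < ratOf q := h1
    have h4 : ratOf q < x + (1 / 2) ^ (n + 1) := h2
    exact ⟨q, abs_le.mpr ⟨by linarith, by linarith⟩⟩
  choose p hp using h
  exact ⟨p, hp⟩

theorem initial_congr {β : Type} {p p' : ℕ → β} {m : ℕ} (h : ∀ k < m, p k = p' k) :
    initial p m = initial p' m := by
  apply List.map_congr_left
  intro k hk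
  exact h k (List.mem_range.mp hk)

theorem continuous_of_computable {f : ℝ → ℝ} (hf : ComputableReal f) : Continuous f := by
  obtain ⟨φ, -, hφ⟩ := hf
  rw [Metric.continuous_iff]
  intro x ε hε
  obtain ⟨n, hn⟩ := exists_pow_lt_of_lt_one (half_pos hε) (show (1 / 2 : ℝ) < 1 by norm_num)
  obtain ⟨p, hp⟩ := exists_strong_name x
  have hpn : IsName p x := fun k => (hp k).trans
    (pow_le_pow_of_le_one (by norm_num) (by norm_num) (Nat.le_succ k))
  obtain ⟨q, hq1, hq2⟩ := hφ x p hpn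
  obtain ⟨m, hm1, hm2⟩ := hq2 n
  refine ⟨(1 / 2) ^ m, by positivity, ?_⟩
  intro x' hx'
  obtain ⟨p2, hp2⟩ := exists_strong_name x'
  let p' : ℕ → ℕ × ℕ × ℕ := fun k => if k < m then p k else p2 k
  have hp' : IsName p' x' := by
    intro k
    by_cases hk : k < m
    · have h1 : p' k = p k := if_pos hk
      rw [h1]
      have h2 : (1 / 2 : ℝ) ^ m ≤ (1 / 2) ^ (k + 1) :=
        pow_le_pow_of_le_one (by norm_num) (by norm_num) hk
      have h3 := hp k
      rw [Real.dist_eq] at hx'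
      have h4 : |ratOf (p k) - x'| ≤ |ratOf (p k) - x| + |x' - x| := by
        have := abs_sub_le (ratOf (p k)) x x'
        rwa [abs_sub_comm x x'] at this
      have h5 : (1 / 2 : ℝ) ^ k = (1 / 2) ^ (k + 1) + (1 / 2) ^ (k + 1) := by ring
      rw [h5]
      linarith
    · have h1 : p' k = p2 k := if_neg hk
      rw [h1]
      exact (hp2 k).trans (pow_le_pow_of_le_one (by norm_num) (by norm_num) (Nat.le_succ k))
  obtain ⟨q', hq1', hq2'⟩ := hφ x' p' hp'
  have hcongr : ∀ m' ≤ m, initial p' m' = initial p m' := by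
    intro m' hm'
    apply initial_congr
    intro k hk
    exact if_pos (lt_of_lt_of_le hk hm')
  have h6 : Outputs φ p' n (q n) := by
    refine ⟨m, ?_, ?_⟩
    · rw [hcongr m le_rfl]
      exact hm1
    · intro m' hm'
      rw [hcongr m' hm'.le]
      exact hm2 m' hm'
  have h7 : q' n = q n := outputs_unique (hq2' n) h6
  have h8 := hq1 n
  have h9 := hq1' n
  rw [h7] at h9
  rw [Real.dist_eq]
  have h10 : |f x' - f x| ≤ |ratOf (q n) - f x'| + |ratOf (q n) - f x| := by
    have := abs_sub_le (f x') (ratOf (q n)) (f x)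
    rwa [abs_sub_comm (f x') (ratOf (q n))] at this
  linarith

/-! ### Effective data of a computable function -/

/-- The code of the rational number `i / 2^N + (jp - jn)`. -/
def dyCode (jp jn : ℕ) (z : ℕ × ℕ) : ℕ × ℕ × ℕ :=
  (z.1 + jp * 2 ^ z.2, jn * 2 ^ z.2, 2 ^ z.2 - 1)

theorem ratOf_dyCode (jp jn : ℕ) (z : ℕ × ℕ) :
    ratOf (dyCode jp jn z) = (z.1 : ℝ) / 2 ^ z.2 + ((jp : ℝ) - jn) := by
  have h1 : ((2 ^ z.2 - 1 : ℕ) : ℝ) + 1 = 2 ^ z.2 := by
    have : 2 ^ z.2 - 1 + 1 = 2 ^ z.2 := Nat.sub_add_cancel Nat.one_le_two_pow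
    exact_mod_cast this
  simp only [ratOf, dyCode]
  rw [h1]
  push_cast
  field_simp
  ring

theorem primrec_dyCode (jp jn : ℕ) : Primrec (dyCode jp jn) := by
  have h2 : Primrec fun z : ℕ × ℕ => 2 ^ z.2 := primrec_pow2.comp snd
  exact (nat_add.comp fst (nat_mul.comp (Primrec.const jp) h2)).pair
    ((nat_mul.comp (Primrec.const jn) h2).pair (nat_sub.comp h2 (Primrec.const 1)))

theorem fdata {f : ℝ → ℝ} (hf : ComputableReal f) (jp jn : ℕ) :
    FData (fun v => f (v + ((jp : ℝ) - jn))) := by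
  have hcont := continuous_of_computable hf
  obtain ⟨φ, hφc, hφ⟩ := hf
  refine ⟨hcont.comp (continuous_id.add continuous_const), ?_⟩
  -- the output with the constant oracle
  let out : ((ℕ × ℕ) × ℕ) × ℕ → Option (ℕ × ℕ × ℕ) := fun z =>
    φ (initial (fun _ => dyCode jp jn z.1.1) z.2, z.1.2)
  have hout : Computable out := by
    refine hφc.comp (Computable.pair ?_ ?_)
    · have h1 : Primrec fun z : ((ℕ × ℕ) × ℕ) × ℕ =>
          (List.range z.2).map (fun _ => dyCode jp jn z.1.1) := by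
        refine list_map (list_range.comp snd) ?_
        exact ((primrec_dyCode jp jn).comp (fst.comp (fst.comp fst))).to₂
      exact h1.to_comp
    · exact (snd.comp fst).to_comp
  -- parameters `((q, (i, N)), n), m), a`
  have h1 : ND (fun (p : ((((ℕ × ℕ × ℕ) × (ℕ × ℕ)) × ℕ) × ℕ) × (ℕ × ℕ × ℕ)) =>
      out ((p.1.1.1.2, p.1.1.2), p.1.2) = some p.2) := by
    have h2 : ND (fun z : Option (ℕ × ℕ × ℕ) × (ℕ × ℕ × ℕ) => z.1 = some z.2) :=
      D11.of_primrec (Primrec.eq.comp fst (option_some.comp snd))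
    refine ND.comp' h2 (g := fun p : ((((ℕ × ℕ × ℕ) × (ℕ × ℕ)) × ℕ) × ℕ) × (ℕ × ℕ × ℕ) =>
      (out ((p.1.1.1.2, p.1.1.2), p.1.2), p.2)) (Computable.pair (hout.comp ?_) snd.to_comp)
    exact (((snd.comp (fst.comp (fst.comp fst))).pair (snd.comp (fst.comp fst))).pair
      (snd.comp fst)).to_comp
  have h2 : ND (fun (p : (((((ℕ × ℕ × ℕ) × (ℕ × ℕ)) × ℕ) × ℕ) × (ℕ × ℕ × ℕ)) × ℕ) =>
      p.2 < p.1.1.2 → out ((p.1.1.1.1.2, p.1.1.1.2), p.2) = none) := by
    apply D11.imp
    · exact D11.of_primrec (nat_lt.comp snd (snd.comp (fst.comp fst)))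
    · have h3 : ND (fun z : Option (ℕ × ℕ × ℕ) => z = none) :=
        D11.of_primrec (Primrec.eq.comp Primrec.id (Primrec.const none))
      refine ND.comp' h3 (g := fun p : (((((ℕ × ℕ × ℕ) × (ℕ × ℕ)) × ℕ) × ℕ) × (ℕ × ℕ × ℕ)) × ℕ =>
        out ((p.1.1.1.1.2, p.1.1.1.2), p.2)) (hout.comp ?_)
      exact (((snd.comp (fst.comp (fst.comp (fst.comp fst)))).pair
        (snd.comp (fst.comp (fst.comp fst)))).pair snd).to_comp
  have h3 : ND (fun (p : ((((ℕ × ℕ × ℕ) × (ℕ × ℕ)) × ℕ) × ℕ) × (ℕ × ℕ × ℕ)) =>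
      rat (addInv p.1.1.1.1 (2 ^ p.1.1.2 - 1)) < rat p.2) := by
    refine D11.of_primrec (primrec_rat_lt.comp (Primrec.pair ?_ snd))
    exact primrec_addInv.comp (fst.comp (fst.comp (fst.comp fst)))
      (nat_sub.comp (primrec_pow2.comp (snd.comp (fst.comp fst))) (Primrec.const 1))
  have h4 := ((h1.and h2.all).and h3).ex.ex.ex
  refine D11.of_iff h4 ?_
  rintro - ⟨q, i, N⟩
  simp only
  set x : ℝ := (i : ℝ) / 2 ^ N + ((jp : ℝ) - jn) with hx
  have hname : IsName (fun _ => dyCode jp jn (i, N)) x := by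
    intro n
    rw [ratOf_dyCode]
    simp only [hx, sub_self, abs_zero]
    positivity
  obtain ⟨r, hr1, hr2⟩ := hφ x _ hname
  have hadd : ∀ n : ℕ, rat (addInv q (2 ^ n - 1)) = ratOf q + (1 / 2) ^ n := by
    intro n
    rw [rat_addInv]
    have h5 : (((2 ^ n - 1 : ℕ) : ℝ) + 1) = 2 ^ n := by
      have : 2 ^ n - 1 + 1 = 2 ^ n := Nat.sub_add_cancel Nat.one_le_two_pow
      exact_mod_cast this
    rw [h5, one_div, one_div, inv_pow]
    rfl
  constructor
  · intro h
    have h5 : 0 < f x - ratOf q := sub_pos.mpr h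
    obtain ⟨n, hn⟩ := exists_pow_lt_of_lt_one (half_pos h5) (show (1 / 2 : ℝ) < 1 by norm_num)
    obtain ⟨m, hm1, hm2⟩ := hr2 n
    refine ⟨n, m, r n, ⟨hm1, fun m' hm' => hm2 m' hm'⟩, ?_⟩
    have h6 := (abs_le.mp (hr1 n)).1
    rw [hadd n]
    show ratOf q + (1 / 2) ^ n < ratOf (r n)
    linarith
  · rintro ⟨n, m, a, ⟨hm1, hm2⟩, hlt⟩
    have h5 : Outputs φ (fun _ => dyCode jp jn (i, N)) n a := ⟨m, hm1, fun m' hm' => hm2 m' hm'⟩
    have h6 : a = r n := outputs_unique h5 (hr2 n)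
    have h7 := (abs_le.mp (hr1 n)).2
    rw [hadd n, h6] at hlt
    have h8 : ratOf q + (1 / 2) ^ n < ratOf (r n) := hlt
    show ratOf q < f x
    linarith

/-! ### Internal hyperarithmetic relations give `Δ¹₁` sets -/

/-- A witness `(w, c, t, jp, jn)` decoded from a natural number. -/
def wit (k : ℕ) : ℕ × ℕ × ℕ × ℕ × ℕ :=
  (Encodable.decode (α := ℕ × ℕ × ℕ × ℕ × ℕ) k).getD (0, 0, 0, 0, 0)

theorem wit_encode (z : ℕ × ℕ × ℕ × ℕ × ℕ) : wit (Encodable.encode z) = z := by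
  rw [wit, Encodable.encodek]
  rfl

theorem primrec_wit : Primrec wit :=
  Primrec.option_getD.comp Primrec.decode (Primrec.const _)

/-- The code of the lower bound `(jp - jn) + c / 2^n`. -/
def loCode (n : ℕ) (z : ℕ × ℕ × ℕ × ℕ × ℕ) : ℕ × ℕ × ℕ :=
  (z.2.1 + z.2.2.2.1 * 2 ^ n, z.2.2.2.2 * 2 ^ n, 2 ^ n - 1)

/-- The code of the upper bound `(jp - jn) + (c + 1) / 2^n - 1 / (t + 1)`. -/
def upCode (n : ℕ) (z : ℕ × ℕ × ℕ × ℕ × ℕ) : ℕ × ℕ × ℕ :=
  subInv (z.2.1 + 1 + z.2.2.2.1 * 2 ^ n, z.2.2.2.2 * 2 ^ n, 2 ^ n - 1) z.2.2.1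

theorem rat_loCode (n : ℕ) (z : ℕ × ℕ × ℕ × ℕ × ℕ) :
    rat (loCode n z) = (z.2.1 : ℝ) / 2 ^ n + ((z.2.2.2.1 : ℝ) - z.2.2.2.2) :=
  ratOf_dyCode z.2.2.2.1 z.2.2.2.2 (z.2.1, n)

theorem rat_upCode (n : ℕ) (z : ℕ × ℕ × ℕ × ℕ × ℕ) :
    rat (upCode n z) = ((z.2.1 : ℝ) + 1) / 2 ^ n + ((z.2.2.2.1 : ℝ) - z.2.2.2.2) -
      1 / ((z.2.2.1 : ℝ) + 1) := by
  have h := ratOf_dyCode z.2.2.2.1 z.2.2.2.2 (z.2.1 + 1, n)
  have h' : rat (z.2.1 + 1 + z.2.2.2.1 * 2 ^ n, z.2.2.2.2 * 2 ^ n, 2 ^ n - 1) =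
      ((z.2.1 : ℝ) + 1) / 2 ^ n + ((z.2.2.2.1 : ℝ) - z.2.2.2.2) := by
    have h2 : rat (z.2.1 + 1 + z.2.2.2.1 * 2 ^ n, z.2.2.2.2 * 2 ^ n, 2 ^ n - 1) =
      (((z.2.1 + 1 : ℕ) : ℝ)) / 2 ^ n + ((z.2.2.2.1 : ℝ) - z.2.2.2.2) := h
    rw [h2]
    push_cast
    rfl
  rw [upCode, rat_subInv, h']

theorem primrec_loCode : Primrec₂ loCode := by
  have c : Primrec fun p : ℕ × (ℕ × ℕ × ℕ × ℕ × ℕ) => p.2.2.1 := fst.comp (snd.comp snd)
  have jp : Primrec fun p : ℕ × (ℕ × ℕ × ℕ × ℕ × ℕ) => p.2.2.2.2.1 :=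
    fst.comp (snd.comp (snd.comp (snd.comp snd)))
  have jn : Primrec fun p : ℕ × (ℕ × ℕ × ℕ × ℕ × ℕ) => p.2.2.2.2.2 :=
    snd.comp (snd.comp (snd.comp (snd.comp snd)))
  have h2 : Primrec fun p : ℕ × (ℕ × ℕ × ℕ × ℕ × ℕ) => 2 ^ p.1 := primrec_pow2.comp fst
  exact ((nat_add.comp c (nat_mul.comp jp h2)).pair
    ((nat_mul.comp jn h2).pair (nat_sub.comp h2 (Primrec.const 1)))).to₂

theorem primrec_upCode : Primrec₂ upCode := by
  have c : Primrec fun p : ℕ × (ℕ × ℕ × ℕ × ℕ × ℕ) => p.2.2.1 := fst.comp (snd.comp snd)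
  have t : Primrec fun p : ℕ × (ℕ × ℕ × ℕ × ℕ × ℕ) => p.2.2.2.1 :=
    fst.comp (snd.comp (snd.comp snd))
  have jp : Primrec fun p : ℕ × (ℕ × ℕ × ℕ × ℕ × ℕ) => p.2.2.2.2.1 :=
    fst.comp (snd.comp (snd.comp (snd.comp snd)))
  have jn : Primrec fun p : ℕ × (ℕ × ℕ × ℕ × ℕ × ℕ) => p.2.2.2.2.2 :=
    snd.comp (snd.comp (snd.comp (snd.comp snd)))
  have h2 : Primrec fun p : ℕ × (ℕ × ℕ × ℕ × ℕ × ℕ) => 2 ^ p.1 := primrec_pow2.comp fst
  exact (primrec_subInv.comp ((nat_add.comp (Primrec.succ.comp c) (nat_mul.comp jp h2)).pair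
    ((nat_mul.comp jn h2).pair (nat_sub.comp h2 (Primrec.const 1)))) t).to₂

/-- The last entry of a list of witnesses. -/
def lastW (s : List ℕ) : ℕ × ℕ × ℕ × ℕ × ℕ := wit (s.getD (s.length - 1) 0)

theorem primrec_lastW : Primrec lastW :=
  primrec_wit.comp ((Primrec.list_getD 0).comp Primrec.id
    (nat_sub.comp list_length (Primrec.const 1)))

/-- The excluded basic open boxes. -/
def Excl (P : Unit × List ℕ × List ℕ → Prop) (z : (ℕ × ℕ × ℕ) × (ℕ × ℕ × ℕ) × List ℕ) : Prop :=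
  ¬ P ((), z.2.2.map (fun k => (wit k).2.1), z.2.2.map (fun k => (wit k).1)) ∨
  (z.2.2.length ≠ 0 ∧ (¬ (lastW z.2.2).2.1 < 2 ^ (z.2.2.length - 1) ∨
    ¬ rat (loCode (z.2.2.length - 1) (lastW z.2.2)) < rat z.2.1 ∨
    ¬ rat z.1 < rat (upCode (z.2.2.length - 1) (lastW z.2.2))))

theorem primrec_excl {P : Unit × List ℕ × List ℕ → Prop} (hP : PrimrecPred P) :
    PrimrecPred (Excl P) := by
  have s : Primrec fun z : (ℕ × ℕ × ℕ) × (ℕ × ℕ × ℕ) × List ℕ => z.2.2 := snd.comp snd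
  have l : Primrec fun z : (ℕ × ℕ × ℕ) × (ℕ × ℕ × ℕ) × List ℕ => z.2.2.length :=
    list_length.comp s
  have l1 : Primrec fun z : (ℕ × ℕ × ℕ) × (ℕ × ℕ × ℕ) × List ℕ => z.2.2.length - 1 :=
    nat_sub.comp l (Primrec.const 1)
  have la : Primrec fun z : (ℕ × ℕ × ℕ) × (ℕ × ℕ × ℕ) × List ℕ => lastW z.2.2 :=
    primrec_lastW.comp s
  have h1 : PrimrecPred fun z : (ℕ × ℕ × ℕ) × (ℕ × ℕ × ℕ) × List ℕ =>
      ¬ P ((), z.2.2.map (fun k => (wit k).2.1), z.2.2.map (fun k => (wit k).1)) := by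
    refine (hP.comp ((Primrec.const ()).pair (Primrec.pair ?_ ?_))).not
    · exact list_map s ((fst.comp (snd.comp primrec_wit)).comp snd).to₂
    · exact list_map s ((fst.comp primrec_wit).comp snd).to₂
  have h2 : PrimrecPred fun z : (ℕ × ℕ × ℕ) × (ℕ × ℕ × ℕ) × List ℕ => z.2.2.length ≠ 0 :=
    (Primrec.eq.comp l (Primrec.const 0)).not
  have h3 : PrimrecPred fun z : (ℕ × ℕ × ℕ) × (ℕ × ℕ × ℕ) × List ℕ =>
      ¬ (lastW z.2.2).2.1 < 2 ^ (z.2.2.length - 1) :=
    (nat_lt.comp (fst.comp (snd.comp la)) (primrec_pow2.comp l1)).not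
  have h4 : PrimrecPred fun z : (ℕ × ℕ × ℕ) × (ℕ × ℕ × ℕ) × List ℕ =>
      ¬ rat (loCode (z.2.2.length - 1) (lastW z.2.2)) < rat z.2.1 :=
    (primrec_rat_lt.comp ((primrec_loCode.comp l1 la).pair (fst.comp snd))).not
  have h5 : PrimrecPred fun z : (ℕ × ℕ × ℕ) × (ℕ × ℕ × ℕ) × List ℕ =>
      ¬ rat z.1 < rat (upCode (z.2.2.length - 1) (lastW z.2.2)) :=
    (primrec_rat_lt.comp (fst.pair (primrec_upCode.comp l1 la))).not
  exact h1.or (h2.and (h3.or (h4.or h5)))

theorem isSigma11_of_excl {A : Set ℝ} {Q : (ℕ × ℕ × ℕ) × (ℕ × ℕ × ℕ) × List ℕ → Prop}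
    (hQ : PrimrecPred Q)
    (h : ∀ x, x ∈ A ↔ ∃ w : ℕ → ℕ, ∀ z, Q z →
      ¬ (ratOf z.1 < x ∧ x < ratOf z.2.1 ∧ initial w z.2.2.length = z.2.2)) : IsSigma11 A := by
  classical
  obtain ⟨hdec, hQ'⟩ := hQ
  let triv : (ℕ × ℕ × ℕ) × (ℕ × ℕ × ℕ) × List ℕ := ((0, 0, 0), (0, 0, 0), [])
  let dec : ℕ → (ℕ × ℕ × ℕ) × (ℕ × ℕ × ℕ) × List ℕ := fun n =>
    (Encodable.decode (α := (ℕ × ℕ × ℕ) × (ℕ × ℕ × ℕ) × List ℕ) n).getD triv
  have hdecp : Primrec dec := Primrec.option_getD.comp Primrec.decode (Primrec.const _)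
  have hQp : PrimrecPred Q := ⟨hdec, hQ'⟩
  let e : ℕ → (ℕ × ℕ × ℕ) × (ℕ × ℕ × ℕ) × List ℕ := fun n =>
    if Q (dec n) then dec n else triv
  have he : Primrec e := Primrec.ite (hQp.comp hdecp) hdecp (Primrec.const _)
  refine ⟨e, he.to_comp, ?_⟩
  intro x
  rw [h x]
  apply exists_congr
  intro w
  constructor
  · intro h1 n
    by_cases hn : Q (dec n)
    · have h2 : e n = dec n := if_pos hn
      rw [h2]
      exact h1 _ hn
    · have h2 : e n = triv := if_neg hn
      rw [h2]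
      rintro ⟨h3, h4, -⟩
      exact absurd (h3.trans h4) (lt_irrefl _)
  · intro h1 z hz
    have h2 : dec (Encodable.encode z) = z := by
      show (Encodable.decode (Encodable.encode z)).getD triv = z
      rw [Encodable.encodek]
      rfl
    have h3 := h1 (Encodable.encode z)
    have h4 : e (Encodable.encode z) = z := by
      show (if Q (dec (Encodable.encode z)) then dec (Encodable.encode z) else triv) = z
      rw [h2, if_pos hz]
    rw [h4] at h3
    exact h3

theorem isSigma11_of_S11 {E : (ℕ → ℕ) → Unit → Prop} (hE : S11 E) :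
    IsSigma11 {x | E (dig (Int.fract x)) ()} := by
  obtain ⟨P, hP, hE⟩ := hE
  refine isSigma11_of_excl (primrec_excl hP) ?_
  intro x
  have hfr : Int.fract x ∈ Ico (0 : ℝ) 1 := ⟨Int.fract_nonneg x, Int.fract_lt_one x⟩
  rw [Set.mem_ofPred_eq, hE]
  constructor
  · rintro ⟨w, hw⟩
    -- the closeness witnesses
    have ht : ∀ n, ∃ t : ℕ, Int.fract x ≤ ((dig (Int.fract x) n : ℝ) + 1) / 2 ^ n -
        1 / ((t : ℝ) + 1) := by
      intro n
      have h1 := ((dig_eq_iff hfr.1 n _).mp rfl).2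
      obtain ⟨t, ht⟩ := exists_nat_one_div_lt (sub_pos.mpr h1)
      exact ⟨t, by linarith⟩
    choose t ht using ht
    let u : ℕ → ℕ × ℕ × ℕ × ℕ × ℕ := fun n =>
      (w n, dig (Int.fract x) n, t n, (Int.floor x).toNat, (-(Int.floor x)).toNat)
    have hfl : ((Int.floor x).toNat : ℝ) - ((-(Int.floor x)).toNat : ℝ) = Int.floor x := by
      have : (((Int.floor x).toNat : ℤ)) - (((-(Int.floor x)).toNat : ℤ)) = Int.floor x := by
        omega
      exact_mod_cast this
    have hx : x = Int.fract x + Int.floor x := (Int.fract_add_floor x).symm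
    refine ⟨fun n => Encodable.encode (u n), ?_⟩
    rintro ⟨a, b, s⟩ hQ ⟨h1, h2, h3⟩
    simp only at h1 h2 h3
    rcases hQ with hQ | ⟨hl, hQ⟩
    · apply hQ
      simp only
      have h4 := hw s.length
      have h5 : s.map (fun k => (wit k).2.1) = pre (dig (Int.fract x)) s.length := by
        conv_lhs => rw [← h3]
        rw [initial, List.map_map]
        apply List.map_congr_left
        intro k _
        simp only [Function.comp_apply, wit_encode]
        rfl
      have h6 : s.map (fun k => (wit k).1) = pre w s.length := by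
        conv_lhs => rw [← h3]
        rw [initial, List.map_map]
        apply List.map_congr_left
        intro k _
        simp only [Function.comp_apply, wit_encode]
        rfl
      rw [h5, h6]
      exact h4
    · simp only at hl hQ
      have hlast : lastW s = u (s.length - 1) := by
        rw [lastW]
        have h4 : s.getD (s.length - 1) 0 = Encodable.encode (u (s.length - 1)) := by
          conv_lhs => rw [← h3]
          rw [initial, List.length_map, List.length_range]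
          exact pre_getD (fun n => Encodable.encode (u n)) 0 s.length (s.length - 1)
            (Nat.sub_lt (Nat.pos_of_ne_zero hl) one_pos)
        rw [h4, wit_encode]
      rw [hlast] at hQ
      set n := s.length - 1 with hn
      rcases hQ with hQ | hQ | hQ
      · exact hQ (dig_lt hfr n)
      · apply hQ
        rw [rat_loCode]
        simp only [u]
        rw [hfl]
        refine lt_of_le_of_lt ?_ h2
        have h4 := ((dig_eq_iff hfr.1 n _).mp rfl).1
        linarith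
      · apply hQ
        rw [rat_upCode]
        simp only [u]
        rw [hfl]
        refine lt_of_lt_of_le h1 ?_
        have h4 := ht n
        linarith
  · rintro ⟨w', hw'⟩
    -- all boxes around `x`
    have hbox : ∀ s : List ℕ, initial w' s.length = s → ∀ a b : ℕ × ℕ × ℕ, ratOf a < x →
        x < ratOf b → ¬ Excl P (a, b, s) := by
      intro s hs a b ha hb hex
      exact hw' (a, b, s) hex ⟨ha, hb, hs⟩
    obtain ⟨a0, ha0, ha0'⟩ := exists_rat_btwn' (x := x - 1) (y := x) (by linarith)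
    obtain ⟨b0, hb0, hb0'⟩ := exists_rat_btwn' (x := x) (y := x + 1) (by linarith)
    have hlen : ∀ m, (initial w' m).length = m := by
      intro m
      simp [initial]
    have hlast : ∀ n, lastW (initial w' (n + 1)) = wit (w' n) := by
      intro n
      rw [lastW, hlen, Nat.add_sub_cancel]
      congr 1
      exact pre_getD w' 0 (n + 1) n (Nat.lt_succ_self n)
    have hcell : ∀ n, dig (Int.fract x) n = (wit (w' n)).2.1 := by
      intro n
      have hlt : (wit (w' n)).2.1 < 2 ^ n := by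
        by_contra hcon
        refine hbox (initial w' (n + 1)) (by rw [hlen]) a0 b0 ha0' hb0 (Or.inr ⟨?_, Or.inl ?_⟩)
        · simp only [hlen]
          omega
        · simp only [hlen, hlast, Nat.add_sub_cancel]
          exact hcon
      have hlo : rat (loCode n (wit (w' n))) ≤ x := by
        by_contra hcon
        rw [not_le] at hcon
        obtain ⟨b, hb1, hb2⟩ := exists_rat_btwn' hcon
        refine hbox (initial w' (n + 1)) (by rw [hlen]) a0 b ha0' hb1
          (Or.inr ⟨?_, Or.inr (Or.inl ?_)⟩)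
        · simp only [hlen]
          omega
        · simp only [hlen, hlast, Nat.add_sub_cancel, not_lt]
          exact hb2.le
      have hup : x ≤ rat (upCode n (wit (w' n))) := by
        by_contra hcon
        rw [not_le] at hcon
        obtain ⟨a, ha1, ha2⟩ := exists_rat_btwn' hcon
        refine hbox (initial w' (n + 1)) (by rw [hlen]) a b0 ha2 hb0
          (Or.inr ⟨?_, Or.inr (Or.inr ?_)⟩)
        · simp only [hlen]
          omega
        · simp only [hlen, hlast, Nat.add_sub_cancel, not_lt]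
          exact ha1.le
      rw [rat_loCode] at hlo
      rw [rat_upCode] at hup
      set c := (wit (w' n)).2.1 with hc
      set jp := (wit (w' n)).2.2.2.1
      set jn := (wit (w' n)).2.2.2.2
      have htp : (0 : ℝ) < 1 / (((wit (w' n)).2.2.1 : ℝ) + 1) := by positivity
      have hc0 : (0 : ℝ) ≤ (c : ℝ) / 2 ^ n := by positivity
      have hc1 : ((c : ℝ) + 1) / 2 ^ n ≤ 1 := by
        rw [div_le_one (by positivity)]
        exact_mod_cast hlt
      have hfloor : Int.floor x = (jp : ℤ) - jn := by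
        rw [Int.floor_eq_iff]
        push_cast
        constructor
        · linarith
        · linarith
      have hfract : Int.fract x = x - ((jp : ℝ) - jn) := by
        rw [Int.fract, hfloor]
        push_cast
        rfl
      rw [dig_eq_iff hfr.1, hfract]
      constructor
      · linarith
      · linarith
    refine ⟨fun n => (wit (w' n)).1, ?_⟩
    intro n
    by_contra hcon
    refine hbox (initial w' n) (by rw [hlen]) a0 b0 ha0' hb0 (Or.inl ?_)
    simp only
    have h5 : (initial w' n).map (fun k => (wit k).2.1) = pre (dig (Int.fract x)) n := by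
      rw [initial, List.map_map]
      apply List.map_congr_left
      intro k _
      exact (hcell k).symm
    have h6 : (initial w' n).map (fun k => (wit k).1) = pre (fun n => (wit (w' n)).1) n := by
      rw [initial, List.map_map]
      rfl
    rw [h5, h6]
    exact hcon

theorem isDelta11_of_RD {D : ℝ → Unit → Prop} (hD : RD D) :
    IsDelta11 {x | D (Int.fract x) ()} := by
  obtain ⟨E, hE, hED⟩ := hD
  have hfr : ∀ x : ℝ, Int.fract x ∈ Ico (0 : ℝ) 1 := fun x =>
    ⟨Int.fract_nonneg x, Int.fract_lt_one x⟩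
  have h1 : {x | D (Int.fract x) ()} = {x | E (dig (Int.fract x)) ()} := by
    ext x
    exact hED _ (hfr x) ()
  have h2 : {x | D (Int.fract x) ()}ᶜ = {x | ¬ E (dig (Int.fract x)) ()} := by
    rw [h1]
    rfl
  constructor
  · rw [h1]
    exact isSigma11_of_S11 hE.1
  · rw [h2]
    exact isSigma11_of_S11 hE.2

/-! ### Countability -/

theorem countable_computable (β : Type) [Primcodable β] :
    {e : ℕ → β | Computable e}.Countable := by
  classical
  rw [Set.countable_iff_exists_injOn]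
  have hex : ∀ e : ℕ → β, Computable e → ∃ c : Nat.Partrec.Code, ∀ a b,
      Encodable.encode b ∈ c.eval a ↔ e a = b := by
    intro e he
    obtain ⟨c, hc⟩ := Nat.Partrec.Code.exists_code.mp he
    refine ⟨c, ?_⟩
    intro a b
    rw [hc]
    simp [eq_comm]
  refine ⟨fun e => if h : Computable e then Encodable.encode (hex e h).choose else 0, ?_⟩
  intro e he e' he' h
  have he1 : Computable e := he
  have he1' : Computable e' := he'
  simp only [he1, he1', dif_pos] at h
  have h1 := Encodable.encode_injective h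
  have h2 := (hex e he1).choose_spec
  have h3 := (hex e' he1').choose_spec
  rw [h1] at h2
  funext a
  exact ((h3 a (e a)).mp ((h2 a (e a)).mpr rfl)).symm

theorem countable_delta11 : {A : Set ℝ | IsDelta11 A ∧ volume A = 0}.Countable := by
  refine ((countable_computable ((ℕ × ℕ × ℕ) × (ℕ × ℕ × ℕ) × List ℕ)).image
    (fun e => {x : ℝ | ∃ w : ℕ → ℕ, ∀ n,
      ¬ (ratOf (e n).1 < x ∧ x < ratOf (e n).2.1 ∧
        initial w (e n).2.2.length = (e n).2.2)})).mono ?_
  rintro A ⟨⟨⟨e, he, hA⟩, -⟩, -⟩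
  refine ⟨e, he, ?_⟩
  ext x
  exact (hA x).symm

/-- Almost every real is `Δ¹₁`-random. -/
theorem nonrandom_null : volume {x | ¬ Delta11Random x} = 0 := by
  have h1 : {x | ¬ Delta11Random x} ⊆ ⋃₀ {A : Set ℝ | IsDelta11 A ∧ volume A = 0} := by
    intro x hx
    simp only [Set.mem_ofPred_eq, Delta11Random] at hx
    push Not at hx
    obtain ⟨A, hA1, hA2, hA3⟩ := hx
    exact ⟨A, ⟨hA1, hA2⟩, hA3⟩
  refine measure_mono_null h1 ?_
  rw [measure_sUnion_null_iff countable_delta11]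
  exact fun A hA => hA.2

/-! ### The main theorem -/

theorem volume_eq_lam {S : Set ℝ} (hS : S ⊆ Ico (0 : ℝ) 1) : volume S = lam S := by
  rw [lam, Measure.restrict_apply' measurableSet_Ico, inter_eq_left.mpr hS]

theorem volume_fract {D : ℝ → Prop} (hD : lam {v | v ∈ Ico (0 : ℝ) 1 ∧ D v} = 0) :
    volume {x : ℝ | D (Int.fract x)} = 0 := by
  have h0 : volume {v | v ∈ Ico (0 : ℝ) 1 ∧ D v} = 0 := by
    rw [volume_eq_lam (fun v hv => hv.1)]
    exact hD
  have h1 : {x : ℝ | D (Int.fract x)} ⊆ ⋃ i : ℤ,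
      (fun x => x + (i : ℝ)) ⁻¹' {v | v ∈ Ico (0 : ℝ) 1 ∧ D v} := by
    intro x hx
    rw [mem_iUnion]
    refine ⟨-(Int.floor x), ?_⟩
    have h2 : x + ((-(Int.floor x) : ℤ) : ℝ) = Int.fract x := by
      push_cast
      rw [Int.fract]
      ring
    show x + ((-(Int.floor x) : ℤ) : ℝ) ∈ Ico (0 : ℝ) 1 ∧ D (x + ((-(Int.floor x) : ℤ) : ℝ))
    rw [h2]
    exact ⟨⟨Int.fract_nonneg x, Int.fract_lt_one x⟩, hx⟩
  refine measure_mono_null h1 (measure_iUnion_null fun i => ?_)
  rw [measure_preimage_add_right]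
  exact h0

theorem image_null_of_rd {f : ℝ → ℝ} (hr : ReflectsDelta11Randomness f) {D : ℝ → Unit → Prop}
    (hD : RD D) (h0 : lam {v | v ∈ Ico (0 : ℝ) 1 ∧ D v ()} = 0) (j : ℤ) :
    volume ((fun v => f (v + j)) '' {v | v ∈ Ico (0 : ℝ) 1 ∧ D v ()}) = 0 := by
  refine measure_mono_null ?_ nonrandom_null
  rintro _ ⟨v, ⟨hv, hDv⟩, rfl⟩ hrand
  have h1 := hr _ hrand {x | D (Int.fract x) ()} (isDelta11_of_RD hD)
    (volume_fract (D := fun v => D v ()) h0)
  apply h1
  show D (Int.fract (v + (j : ℝ))) ()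
  rw [Int.fract_add_intCast, Int.fract_eq_self.mpr hv]
  exact hDv

/-- **Main theorem.** Every computable function `f : ℝ → ℝ` that reflects `Δ¹₁`-randomness has
Luzin's property (N). -/
theorem result (f : ℝ → ℝ) (hf : ComputableReal f) (hr : ReflectsDelta11Randomness f) :
    LuzinN f := by
  intro K hK
  have hj : ∀ j : ℤ, ((j.toNat : ℝ) - ((-j).toNat : ℝ)) = j := by
    intro j
    have : ((j.toNat : ℤ)) - (((-j).toNat : ℤ)) = j := by omega
    exact_mod_cast this
  have hF : ∀ j : ℤ, FData (fun v => f (v + j)) := by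
    intro j
    have := fdata hf j.toNat (-j).toNat
    rw [hj j] at this
    exact this
  have hcov : f '' K ⊆ ⋃ j : ℤ, (fun v => f (v + j)) ''
      (((fun v : ℝ => v + (j : ℝ)) ⁻¹' K) ∩ Ico (0 : ℝ) 1) := by
    rintro _ ⟨x, hx, rfl⟩
    rw [mem_iUnion]
    have h2 : Int.fract x + ((Int.floor x : ℤ) : ℝ) = x := Int.fract_add_floor x
    refine ⟨Int.floor x, Int.fract x, ⟨?_, Int.fract_nonneg x, Int.fract_lt_one x⟩, ?_⟩
    · show Int.fract x + ((Int.floor x : ℤ) : ℝ) ∈ K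
      rw [h2]
      exact hx
    · show f (Int.fract x + ((Int.floor x : ℤ) : ℝ)) = f x
      rw [h2]
  refine measure_mono_null hcov (measure_iUnion_null fun j => ?_)
  have hKj : volume ((fun v : ℝ => v + (j : ℝ)) ⁻¹' K) = 0 := by
    rw [measure_preimage_add_right]
    exact hK
  have h1 := image_null (hF j) hKj
  have h2 := image_null_of_rd hr (rd_N0 (hF j)) (lam_N0 (hF j)) j
  have h3 := image_null_of_rd hr (rd_N1 (hF j)) (lam_N1 (hF j)) j
  refine measure_mono_null ?_ (measure_union_null h1 (measure_union_null h2 h3))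
  intro y hy
  by_cases h4 : y ∈ (fun v => f (v + j)) '' {v | v ∈ Ico (0 : ℝ) 1 ∧ N0 (fun v => f (v + j)) v} ∪
      (fun v => f (v + j)) '' {v | v ∈ Ico (0 : ℝ) 1 ∧ N1 (fun v => f (v + j)) v}
  · exact Or.inr h4
  · exact Or.inl ⟨hy, h4⟩

end Pool.Agent.Results.MP_a8cc1b_lc.ReflectionImpliesN
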